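import Pool.Agent.Helper90.TS.Stmts

set_option autoImplicit false

namespace Pool.Agent.Helper90.TS

theorem st_EXT (h1 : ST_UNID) (h2 : ST_GEN) (h3 : ST_RKB) : ST_EXT := by
  intro V G _ _ X A C hC hAC ι _ b
  obtain ⟨D, hD, hbD, hrk, huniq⟩ := h1 V G X A (hC.mono hAC) ι b
  have hn : ¬ X.Rge (Order.succ (X.rk A b)) D := fun h => by
    have := (hrk _).1 h
    exact absurd (Order.lt_succ (X.rk A b)) (not_lt.2 this)
  obtain ⟨x, hxD, hx⟩ := h2 V G X C hC ι (X.rk A b) D (ov_mono X hAC hD) ((hrk _).2 le_rfl) hn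
  refine ⟨x, huniq x hxD ?_, hx⟩
  refine le_antisymm ((h3 V G X ι x).2.1 A D _ hD hxD hn) ?_
  rw [← hx]
  exact (h3 V G X ι x).2.2.2.1 A C hAC

end Pool.Agent.Helper90.TS
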