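import Pool.Agent.Helper90.TS.Stmts

set_option autoImplicit false

namespace Pool.Agent.Helper90.TS

theorem st_RKL (h1 : ST_RKB) (h2 : ST_FSUP) : ST_RKL := by
  intro V G _ _ X A hA ι _ b
  obtain ⟨D, hD, hbD, hrk⟩ := (h1 V G X ι b).1 A
  obtain ⟨m, a, E, ha, hE, hDE⟩ := h2 V G X A hA ι D hD
  refine ⟨Set.range a, ha, Set.finite_range a, le_antisymm ?_ ((h1 V G X ι b).2.2.2.1 _ _ ha)⟩
  have hD' : X.Ov (Set.range a) D := by
    rw [hDE]
    have := ov_sec hE a
    rwa [Set.empty_union] at this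
  refine (h1 V G X ι b).2.1 (Set.range a) D _ hD' hbD fun h => ?_
  exact absurd (Order.lt_succ (X.rk A b)) (not_lt.2 ((hrk _).1 h))

end Pool.Agent.Helper90.TS
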