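import Pool.Agent.Helper90.TS.Stmts

set_option autoImplicit false

namespace Pool.Agent.Helper90.TS

theorem typs_aux {V G : Type} [Group G] [MulAction G V] (X : Ctx V G) (A : Set V) (d d' : ℕ → V)
    (s s' : ℕ → V) (h1 : ∀ x ∈ A, ∃ i, s i = x ∧ s' i = x) (h2 : ∀ i, ∃ j, s j = d i ∧ s' j = d' i)
    (h3 : ∀ k : ℕ, ∃ g : G, ∀ j, j < k → g • s j = s' j) : SqEq G A d d' := by
  obtain ⟨g, hg⟩ := X.hom s s' (by
    intro n D _ hD
    obtain ⟨g, hg⟩ := h3 n
    have e : (fun i : Fin n => s' i) = g • (fun i : Fin n => s i) := by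
      funext i
      exact (hg i i.2).symm
    rw [e]
    exact (inv_iff hD (Subgroup.mem_top g) _).symm)
  refine ⟨g, ?_, ?_⟩
  · intro x hx
    obtain ⟨i, hi, hi'⟩ := h1 x hx
    rw [← hi, hg, hi', hi]
  · intro i
    obtain ⟨j, hj, hj'⟩ := h2 i
    rw [← hj, ← hj', hg]

theorem st_TYPS : ST_TYPS := by
  intro V G _ _ X A hA d d' h
  rcases A.eq_empty_or_nonempty with rfl | hne
  · refine typs_aux X _ d d' d d' (by simp) (fun i => ⟨i, rfl, rfl⟩) fun k => ?_
    obtain ⟨g, _, hg⟩ := h k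
    exact ⟨g, fun j hj => congrFun hg ⟨j, hj⟩⟩
  · obtain ⟨a, rfl⟩ := hA.exists_eq_range hne
    refine typs_aux X _ d d' (fun n => if n % 2 = 0 then d (n / 2) else a (n / 2))
      (fun n => if n % 2 = 0 then d' (n / 2) else a (n / 2)) ?_ ?_ ?_
    · rintro _ ⟨i, rfl⟩
      refine ⟨2 * i + 1, ?_, ?_⟩
      · have e1 : (2 * i + 1) % 2 = 1 := by omega
        have e2 : (2 * i + 1) / 2 = i := by omega
        simp [e1, e2]
      · have e1 : (2 * i + 1) % 2 = 1 := by omega
        have e2 : (2 * i + 1) / 2 = i := by omega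
        simp [e1, e2]
    · intro i
      refine ⟨2 * i, ?_, ?_⟩
      · have e1 : (2 * i) % 2 = 0 := by omega
        have e2 : (2 * i) / 2 = i := by omega
        simp [e1, e2]
      · have e1 : (2 * i) % 2 = 0 := by omega
        have e2 : (2 * i) / 2 = i := by omega
        simp [e1, e2]
    · intro k
      obtain ⟨g, hgA, hg⟩ := h k
      refine ⟨g, fun j hj => ?_⟩
      show g • (if j % 2 = 0 then d (j / 2) else a (j / 2)) = if j % 2 = 0 then d' (j / 2) else a (j / 2)
      split_ifs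
      · exact congrFun hg ⟨j / 2, by omega⟩
      · exact hgA _ ⟨_, rfl⟩

end Pool.Agent.Helper90.TS
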