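import Pool.Agent.Helper90.TS.Stmts

set_option autoImplicit false

namespace Pool.Agent.Helper90.TS

theorem st_UNI (h1 : ST_RKB) (h2 : ST_TYPE) : ST_UNI := by
  intro V G _ _ X A C hC hAC ι _ b b' b'' hSta hb' hb'' hr' hr''
  obtain ⟨D, hD, hbD, hDg⟩ := hSta
  have hin : ∀ x : ι → V, Eqv G A b x → x ∈ D := by
    rintro x ⟨g, hg, rfl⟩
    exact hD.2 g hg b hbD
  refine h2 V G X C hC ι b' b'' fun H hH hb'H => ?_
  by_contra hcon
  have h3 : X.Rge (X.rk A b) (D ∩ H) := by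
    have := (h1 V G X ι b').2.2.1 C (D ∩ H) (ov_inter (ov_mono X hAC hD) hH) ⟨hin b' hb', hb'H⟩
    rwa [hr'] at this
  have h4 : X.Rge (X.rk A b) (D \ H) := by
    have := (h1 V G X ι b'').2.2.1 C (D \ H) (ov_diff (ov_mono X hAC hD) hH) ⟨hin b'' hb'', hcon⟩
    rwa [hr''] at this
  exact hDg.2.2 (D ∩ H) (D \ H) Set.inter_subset_left Set.sdiff_subset
    (Set.disjoint_left.2 fun x hx hx' => hx'.2 hx.2) h3 h4

end Pool.Agent.Helper90.TS
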