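import Pool.Agent.Helper90.TS.Stmts

set_option autoImplicit false

namespace Pool.Agent.Helper90.TS

/-- no `k+1` disjoint subsets of `E` over `A` of rank at least `ρ` -/
def unid_P {V G : Type} [Group G] [MulAction G V] (X : Ctx V G) (A : Set V) {ι : Type}
    (ρ : Ordinal.{0}) (D b : Set (ι → V)) (k : ℕ) : Prop :=
  ∃ E, X.Ov A E ∧ b ⊆ E ∧ E ⊆ D ∧ ¬ ∃ F : Fin (k + 1) → Set (ι → V),
    (∀ i, X.Ov A (F i) ∧ F i ⊆ E ∧ X.Rge ρ (F i)) ∧ ∀ i j, i ≠ j → Disjoint (F i) (F j)

theorem st_UNID (h1 : ST_RKB) (h2 : ST_RDEG) (h3 : ST_TYPE) (h4 : ST_RBAS) : ST_UNID := by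
  classical
  intro V G _ _ X A hA ι _ b
  obtain ⟨D0, hD0, hbD0, hrk0⟩ := (h1 V G X ι b).1 A
  have hn : ¬ X.Rge (Order.succ (X.rk A b)) D0 := fun h =>
    absurd (Order.lt_succ (X.rk A b)) (not_lt.2 ((hrk0 _).1 h))
  obtain ⟨m, -, -, -, -, -, hm⟩ := h2 V G X ι (X.rk A b) D0 ((hrk0 _).2 le_rfl) hn
  have hex : ∃ k, unid_P X A (X.rk A b) D0 {b} k := by
    refine ⟨m, D0, hD0, Set.singleton_subset_iff.2 hbD0, subset_rfl, ?_⟩
    rintro ⟨F, hF, hdis⟩
    obtain ⟨i, hi⟩ := hm F (fun i => (hF i).2.1) hdis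
    exact hi (hF i).2.2
  have hfind := Nat.find_spec hex
  have hmin : ∀ k, k < Nat.find hex → ¬ unid_P X A (X.rk A b) D0 {b} k :=
    fun k hk => Nat.find_min hex hk
  generalize Nat.find hex = k at hfind hmin
  obtain ⟨E, hE, hbE, hED, hno⟩ := hfind
  rw [Set.singleton_subset_iff] at hbE
  have hRE : X.Rge (X.rk A b) E := (h1 V G X ι b).2.2.1 A E hE hbE
  refine ⟨E, hE, hbE, fun α => ⟨fun h => ?_, fun h => ?_⟩, fun b' hb' hr => ?_⟩
  · exact (hrk0 α).1 ((h4 V G X ι).1 α E D0 hD0.1 hED h)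
  · exact (h4 V G X ι).2.1 _ α E h hRE
  · refine h3 V G X A hA ι b b' fun H hH hbH => ?_
    by_contra hcon
    have hR2 : X.Rge (X.rk A b) (E \ H) := by
      rw [← hr]
      exact (h1 V G X ι b').2.2.1 A (E \ H) (ov_diff hE hH) ⟨hb', hcon⟩
    cases k with
    | zero =>
      refine hno ⟨fun _ => E \ H, fun _ => ⟨ov_diff hE hH, Set.sdiff_subset, hR2⟩, ?_⟩
      intro i j hij
      exact hij (Fin.ext (by omega)) |>.elim
    | succ k =>
      have h5 := hmin k (Nat.lt_succ_self k)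
      have h6 : ∃ F : Fin (k + 1) → Set (ι → V),
          (∀ i, X.Ov A (F i) ∧ F i ⊆ E ∩ H ∧ X.Rge (X.rk A b) (F i)) ∧
          ∀ i j, i ≠ j → Disjoint (F i) (F j) := by
        by_contra hF
        exact h5 ⟨E ∩ H, ov_inter hE hH, Set.singleton_subset_iff.2 ⟨hbE, hbH⟩,
          Set.inter_subset_left.trans hED, hF⟩
      obtain ⟨F, hF, hdis⟩ := h6
      refine hno ⟨Fin.cons (E \ H) F, fun i => ?_, ?_⟩
      · induction i using Fin.cases with
        | zero => exact ⟨ov_diff hE hH, Set.sdiff_subset, hR2⟩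
        | succ i => exact ⟨(hF i).1, (hF i).2.1.trans Set.inter_subset_left, (hF i).2.2⟩
      · have hd : ∀ i, Disjoint (E \ H) (F i) := fun i =>
          Set.disjoint_left.2 fun x hx hx' => hx.2 ((hF i).2.1 hx').2
        intro i j hij
        induction i using Fin.cases with
        | zero =>
          induction j using Fin.cases with
          | zero => exact absurd rfl hij
          | succ j => exact hd j
        | succ i =>
          induction j using Fin.cases with
          | zero => exact (hd i).symm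
          | succ j => exact hdis i j fun h => hij (by rw [h])

end Pool.Agent.Helper90.TS
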